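import Pool.Agent.Y184.SP.Base

set_option autoImplicit false

open Set Topology Filter
open scoped ContDiff InnerProductSpace

namespace Pool.Agent.Y257.SP
open Pool.Agent.Y184.SP

lemma line_tendsto (x e : ℂ) : Tendsto (fun s : ℝ => x + s • e) (𝓝 0) (𝓝 x) := by
  have : Continuous (fun s : ℝ => x + s • e) := by fun_prop
  simpa using this.tendsto 0

lemma iter_line {f : ℂ → ℝ} {x : ℂ} (hf : ContDiffAt ℝ 2 f x) (e : ℂ) :
    (∀ᶠ t in 𝓝 (0 : ℝ), HasDerivAt (fun s : ℝ => f (x + s • e)) (fderiv ℝ f (x + t • e) e) t) ∧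
    HasDerivAt (fun t : ℝ => fderiv ℝ f (x + t • e) e) (iteratedFDeriv ℝ 2 f x ![e, e]) 0 := by
  have hdiff : ∀ᶠ ζ in 𝓝 x, DifferentiableAt ℝ f ζ := by
    have h := hf.eventually (by simp)
    filter_upwards [h] with ζ hζ
    exact hζ.differentiableAt (by norm_num)
  have hf' : DifferentiableAt ℝ (fderiv ℝ f) x := by
    have : ContDiffAt ℝ 1 (fderiv ℝ f) x := hf.fderiv_right (by norm_num)
    exact this.differentiableAt (by norm_num)
  have hline : ∀ t : ℝ, HasDerivAt (fun s : ℝ => x + s • e) e t := by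
    intro t
    simpa using ((hasDerivAt_id t).smul_const e).const_add x
  constructor
  · filter_upwards [(line_tendsto x e).eventually hdiff] with t htd
    exact htd.hasFDerivAt.comp_hasDerivAt t (hline t)
  · rw [iteratedFDeriv_two_apply]
    simp only [Matrix.cons_val_zero, Matrix.cons_val_one]
    have h6 : HasFDerivAt (fderiv ℝ f) (fderiv ℝ (fderiv ℝ f) x) (x + (0 : ℝ) • e) := by
      rw [zero_smul, add_zero]; exact hf'.hasFDerivAt
    have h7 : HasDerivAt (fun t : ℝ => fderiv ℝ f (x + t • e)) (fderiv ℝ (fderiv ℝ f) x e) 0 :=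
      h6.comp_hasDerivAt (0 : ℝ) (hline 0)
    have h8 := (ContinuousLinearMap.apply ℝ ℝ e).hasFDerivAt.comp_hasDerivAt (0 : ℝ) h7
    exact h8

/-- second derivatives along a line -/
lemma iter_eq {f : ℂ → ℝ} {x : ℂ} (hf : ContDiffAt ℝ 2 f x) (e : ℂ) {ψ : ℝ → ℝ} {c : ℝ}
    (h1 : ∀ᶠ t in 𝓝 (0 : ℝ), HasDerivAt (fun s : ℝ => f (x + s • e)) (ψ t) t)
    (h2 : HasDerivAt ψ c 0) : iteratedFDeriv ℝ 2 f x ![e, e] = c := by
  obtain ⟨h3, h4⟩ := iter_line hf e
  have h5 : ψ =ᶠ[𝓝 0] fun t => fderiv ℝ f (x + t • e) e := by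
    filter_upwards [h1, h3] with t a b
    exact a.unique b
  exact ((h2.congr_of_eventuallyEq h5.symm).unique h4).symm

lemma second_le {f : ℂ → ℝ} {x : ℂ} (hf : ContDiffAt ℝ 2 f x) (hm : IsLocalMax f x) (e : ℂ) :
    iteratedFDeriv ℝ 2 f x ![e, e] ≤ 0 := by
  by_contra hpos
  push Not at hpos
  obtain ⟨h1, h2⟩ := iter_line hf e
  set φ : ℝ → ℝ := fun s => f (x + s • e) with hφ
  have hd1 : deriv φ =ᶠ[𝓝 0] fun t => fderiv ℝ f (x + t • e) e := h1.mono fun t ht => ht.deriv
  have hd2 : deriv (deriv φ) 0 = iteratedFDeriv ℝ 2 f x ![e, e] :=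
    (hd1.deriv_eq).trans h2.deriv
  have hmax : IsLocalMax φ 0 := by
    have h := (line_tendsto x e).eventually hm
    filter_upwards [h] with t ht
    simpa [hφ] using ht
  have hd0 : deriv φ 0 = 0 := hmax.deriv_eq_zero
  have hmin : IsLocalMin φ 0 :=
    isLocalMin_of_deriv_deriv_pos (by rw [hd2]; exact hpos) hd0 h1.self_of_nhds.continuousAt
  have hconst : φ =ᶠ[𝓝 0] fun _ => φ 0 := by
    filter_upwards [hmax, hmin] with t a b
    exact le_antisymm a b
  have h3 : deriv φ =ᶠ[𝓝 0] fun _ => 0 := by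
    have := hconst.deriv
    refine this.trans ?_
    filter_upwards with t
    simp
  have h4 : deriv (deriv φ) 0 = 0 := by
    rw [h3.deriv_eq]; simp
  rw [hd2] at h4
  linarith

/-- the Laplacian at a local maximum -/
lemma lap_le {f : ℂ → ℝ} {x : ℂ} (hf : ContDiffAt ℝ 2 f x) (hm : IsLocalMax f x) :
    Laplacian.laplacian f x ≤ 0 := by
  rw [InnerProductSpace.laplacian_eq_iteratedFDeriv_complexPlane]
  have h1 := second_le hf hm 1
  have h2 := second_le hf hm Complex.I
  simp only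
  linarith

lemma lap_normSq (x0 x : ℂ) : ContDiffAt ℝ 2 (fun y : ℂ => ‖y - x0‖ ^ 2) x ∧
    Laplacian.laplacian (fun y : ℂ => ‖y - x0‖ ^ 2) x = 4 := by
  have hc : ContDiffAt ℝ 2 (fun y : ℂ => ‖y - x0‖ ^ 2) x :=
    (contDiffAt_id.sub contDiffAt_const).norm_sq ℝ
  refine ⟨hc, ?_⟩
  have key : ∀ e : ℂ, iteratedFDeriv ℝ 2 (fun y : ℂ => ‖y - x0‖ ^ 2) x ![e, e] = 2 * ‖e‖ ^ 2 := by
    intro e
    refine iter_eq (ψ := fun t => 2 * ⟪x + t • e - x0, e⟫_ℝ) hc e ?_ ?_
    · filter_upwards with t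
      have h1 : HasDerivAt (fun s : ℝ => x + s • e - x0) e t := by
        simpa using (((hasDerivAt_id t).smul_const e).const_add x).sub_const x0
      exact h1.norm_sq
    · have h1 : HasDerivAt (fun s : ℝ => x + s • e - x0) e 0 := by
        simpa using (((hasDerivAt_id (0 : ℝ)).smul_const e).const_add x).sub_const x0
      have h2 := (h1.inner ℝ (hasDerivAt_const (0 : ℝ) e)).const_mul 2
      simpa [real_inner_self_eq_norm_sq] using h2
  rw [InnerProductSpace.laplacian_eq_iteratedFDeriv_complexPlane]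
  simp only [key]
  norm_num

lemma lap_log (x0 x : ℂ) (hx : x ≠ x0) : ContDiffAt ℝ 2 (fun y : ℂ => Real.log ‖y - x0‖) x ∧
    Laplacian.laplacian (fun y : ℂ => Real.log ‖y - x0‖) x = 0 := by
  have h : InnerProductSpace.HarmonicAt (fun y : ℂ => Real.log ‖y - x0‖) x :=
    AnalyticAt.harmonicAt_log_norm (f := fun y : ℂ => y - x0) (by fun_prop) (sub_ne_zero.2 hx)
  exact ⟨h.1, h.2.self_of_nhds⟩

/-- maximum principle outside a disc -/
lemma outside {v : ℂ → ℝ} (hv : ContDiff ℝ 2 v) {K : ℝ} (hK : ∀ x, |v x| ≤ K)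
    (hl : ∀ x, 0 ≤ Laplacian.laplacian v x) (x0 : ℂ) {r m : ℝ} (hr : 0 < r)
    (hm : ∀ y : ℂ, ‖y - x0‖ = r → v y ≤ m) {x : ℂ} (hx : r ≤ ‖x - x0‖) : v x ≤ m := by
  by_contra hlt
  push Not at hlt
  set g : ℝ := v x - m with hg
  have hgpos : 0 < g := by rw [hg]; linarith
  set L : ℝ := Real.log ‖x - x0‖ - Real.log r with hL
  have hL0 : 0 ≤ L := by
    rw [hL]; have := Real.log_le_log hr hx; linarith
  set η : ℝ := g / (4 * (1 + L)) with hη
  have hη0 : 0 < η := by positivity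
  have hηL : η * L ≤ g / 4 := by
    rw [hη, div_mul_eq_mul_div, div_le_div_iff₀ (by positivity) (by norm_num)]
    nlinarith
  -- the outer radius
  obtain ⟨R, hR1, hR2⟩ : ∃ R : ℝ, ‖x - x0‖ < R ∧ K - η * (Real.log R - Real.log r) < m := by
    have h1 : Tendsto (fun R : ℝ => K - η * (Real.log R - Real.log r)) atTop atBot := by
      have h2 : Tendsto (fun R : ℝ => η * (Real.log R - Real.log r)) atTop atTop :=
        (tendsto_atTop_add_const_right atTop (-Real.log r) Real.tendsto_log_atTop).const_mul_atTop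
          hη0 |>.congr (fun R => by ring)
      exact (tendsto_const_nhds (x := K)).add_atBot (tendsto_neg_atTop_atBot.comp h2) |>.congr
        (fun R => by simp [sub_eq_add_neg])
    have h3 := (h1.eventually (eventually_lt_atBot m)).and (eventually_gt_atTop ‖x - x0‖)
    obtain ⟨R, h4, h5⟩ := h3.exists
    exact ⟨R, h5, h4⟩
  have hR0 : 0 < R := lt_of_le_of_lt (norm_nonneg _) hR1
  set δ : ℝ := g / (4 * R ^ 2) with hδ
  have hδ0 : 0 < δ := by positivity
  have hδR : δ * R ^ 2 = g / 4 := by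
    rw [hδ]; field_simp
  set w : ℂ → ℝ := fun y => v y + (-η) * Real.log ‖y - x0‖ + δ * ‖y - x0‖ ^ 2 with hw
  set A : Set ℂ := {y | r ≤ ‖y - x0‖ ∧ ‖y - x0‖ ≤ R} with hA
  have hAc : IsCompact A := by
    have h1 : IsClosed A := by
      have e : A = {y | r ≤ ‖y - x0‖} ∩ {y | ‖y - x0‖ ≤ R} := rfl
      rw [e]
      exact (isClosed_le continuous_const (by fun_prop)).inter
        (isClosed_le (by fun_prop) continuous_const)
    refine (isCompact_closedBall x0 R).of_isClosed_subset h1 ?_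
    intro y hy
    rw [Metric.mem_closedBall, dist_eq_norm]
    exact hy.2
  have hne : ∀ y ∈ A, y ≠ x0 := by
    intro y hy h0
    have := hy.1
    rw [h0, sub_self, norm_zero] at this
    linarith
  have hwc : ContinuousOn w A := by
    intro y hy
    have h0 : ‖y - x0‖ ≠ 0 := norm_ne_zero_iff.2 (sub_ne_zero.2 (hne y hy))
    have h1 : ContinuousAt (fun y : ℂ => Real.log ‖y - x0‖) y :=
      ContinuousAt.log (by fun_prop) h0
    have h2 : ContinuousAt v y := hv.continuous.continuousAt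
    exact ((h2.add (h1.const_mul (-η))).add (by fun_prop)).continuousWithinAt
  have hxA : x ∈ A := ⟨hx, hR1.le⟩
  obtain ⟨y, hyA, hymax⟩ := hAc.exists_isMaxOn ⟨x, hxA⟩ hwc
  have hwx : m - η * Real.log r + g / 2 < w y := by
    have h1 : w x ≤ w y := hymax hxA
    have h2 : m - η * Real.log r + g / 2 < w x := by
      simp only [hw]
      have h3 : 0 ≤ δ * ‖x - x0‖ ^ 2 := by positivity
      have h4 : η * Real.log ‖x - x0‖ = η * L + η * Real.log r := by rw [hL]; ring
      have h5 : v x = m + g := by rw [hg]; ring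
      rw [h5]
      have h6 : -η * Real.log ‖x - x0‖ = -(η * L + η * Real.log r) := by rw [← h4]; ring
      rw [h6]
      linarith
    linarith
  have hmono : ∀ z ∈ A, δ * ‖z - x0‖ ^ 2 ≤ g / 4 := by
    intro z hz
    rw [← hδR]
    have : ‖z - x0‖ ^ 2 ≤ R ^ 2 := pow_le_pow_left₀ (norm_nonneg _) hz.2 2
    exact mul_le_mul_of_nonneg_left this hδ0.le
  -- the maximum is in the interior
  have hy1 : r < ‖y - x0‖ := by
    refine lt_of_le_of_ne hyA.1 ?_
    intro h
    have h1 := hm y h.symm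
    have h2 := hmono y hyA
    simp only [hw] at hwx
    rw [← h] at hwx h2
    linarith
  have hy2 : ‖y - x0‖ < R := by
    refine lt_of_le_of_ne hyA.2 ?_
    intro h
    have h1 := (abs_le.1 (hK y)).2
    have h2 := hmono y hyA
    simp only [hw] at hwx
    rw [h] at hwx h2
    have h3 : K - η * (Real.log R - Real.log r) = K + (-η) * Real.log R + η * Real.log r := by ring
    rw [h3] at hR2
    linarith
  have hloc : IsLocalMax w y := by
    have ho : IsOpen {z : ℂ | r < ‖z - x0‖ ∧ ‖z - x0‖ < R} := by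
      have e : {z : ℂ | r < ‖z - x0‖ ∧ ‖z - x0‖ < R} =
        {z | r < ‖z - x0‖} ∩ {z | ‖z - x0‖ < R} := rfl
      rw [e]
      exact (isOpen_lt continuous_const (by fun_prop)).inter
        (isOpen_lt (by fun_prop) continuous_const)
    filter_upwards [ho.mem_nhds ⟨hy1, hy2⟩] with z hz
    exact hymax ⟨hz.1.le, hz.2.le⟩
  obtain ⟨c1, l1⟩ := lap_log x0 y (hne y hyA)
  obtain ⟨c2, l2⟩ := lap_normSq x0 y
  have c0 : ContDiffAt ℝ 2 v y := hv.contDiffAt
  have hwe : w = (v + (-η) • (fun y : ℂ => Real.log ‖y - x0‖)) + δ • (fun y : ℂ => ‖y - x0‖ ^ 2) := by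
    funext z
    simp [hw]
  have cc1 : ContDiffAt ℝ 2 ((-η) • (fun y : ℂ => Real.log ‖y - x0‖)) y := c1.const_smul (-η)
  have cc2 : ContDiffAt ℝ 2 (δ • (fun y : ℂ => ‖y - x0‖ ^ 2)) y := c2.const_smul δ
  have cs : ContDiffAt ℝ 2 (v + (-η) • (fun y : ℂ => Real.log ‖y - x0‖)) y := c0.add cc1
  have hcw : ContDiffAt ℝ 2 w y := by
    rw [hwe]
    exact cs.add cc2
  have h1 := lap_le hcw hloc
  have h2 : Laplacian.laplacian w y = Laplacian.laplacian v y + δ * 4 := by
    rw [hwe, cs.laplacian_add cc2, c0.laplacian_add cc1,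
      InnerProductSpace.laplacian_smul _ c1, InnerProductSpace.laplacian_smul _ c2, l1, l2]
    simp
  rw [h2] at h1
  have := hl y
  linarith

theorem liou : StLiou := by
  intro v hv hK hl
  obtain ⟨K, hK⟩ := hK
  have hle : ∀ x0 x : ℂ, v x ≤ v x0 := by
    intro x0 x
    by_cases hx : x = x0
    · rw [hx]
    refine le_of_forall_pos_le_add fun ε hε => ?_
    have hc : ∀ᶠ y in 𝓝 x0, v y < v x0 + ε :=
      hv.continuous.continuousAt.eventually (eventually_lt_nhds (by linarith))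
    obtain ⟨d, hd, hball⟩ := Metric.eventually_nhds_iff.1 hc
    have hxn : 0 < ‖x - x0‖ := norm_pos_iff.2 (sub_ne_zero.2 hx)
    set r : ℝ := min (d / 2) ‖x - x0‖ with hr
    have hr0 : 0 < r := lt_min (by linarith) hxn
    refine outside hv hK hl x0 hr0 (fun y hy => ?_) (min_le_right _ _)
    refine (hball ?_).le
    rw [dist_eq_norm, hy]
    exact lt_of_le_of_lt (min_le_left _ _) (by linarith)
  have hconst : v = fun _ => v 0 := by
    funext x
    exact le_antisymm (hle 0 x) (hle x 0)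
  intro x
  rw [hconst, InnerProductSpace.laplacian_const]
  rfl

end Pool.Agent.Y257.SP
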