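import Pool.Agent.Y184.SP.Base
import Pool.Agent.Y257.SP.Liou

set_option autoImplicit false

open Set Topology Filter
open scoped ContDiff InnerProductSpace

namespace Pool.Agent.Y257.SP
open Pool.Agent.Y184.SP

noncomputable def q : ℝ := Real.exp (-(2 * Real.pi))

lemma q_pos : 0 < q := Real.exp_pos _

lemma q_lt : q < 1 := by
  rw [q, Real.exp_lt_one_iff]
  have := Real.pi_pos
  linarith

noncomputable def F (u : ℂ) : ℂ := ∏' n : ℕ, (1 + -((q : ℂ) ^ (n + 1) * u))

lemma norm_fac (u : ℂ) (n : ℕ) : ‖-((q : ℂ) ^ (n + 1) * u)‖ = q ^ (n + 1) * ‖u‖ := by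
  rw [norm_neg, norm_mul, norm_pow, Complex.norm_real, Real.norm_of_nonneg q_pos.le]

lemma summ (u : ℂ) : Summable fun n : ℕ => ‖-((q : ℂ) ^ (n + 1) * u)‖ := by
  simp only [norm_fac]
  exact ((summable_nat_add_iff 1).mpr (summable_geometric_of_lt_one q_pos.le q_lt)).mul_right _

lemma F_mult (u : ℂ) : Multipliable (fun n : ℕ => 1 + -((q : ℂ) ^ (n + 1) * u)) :=
  multipliable_one_add_of_summable (summ u)

lemma F_diff : Differentiable ℂ F := by
  intro x
  have hU : IsOpen (Metric.ball (0 : ℂ) (‖x‖ + 1)) := Metric.isOpen_ball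
  have hs : Summable (fun n : ℕ => q ^ (n + 1) * (‖x‖ + 1)) :=
    ((summable_nat_add_iff 1).mpr (summable_geometric_of_lt_one q_pos.le q_lt)).mul_right _
  have h := hs.hasProdLocallyUniformlyOn_nat_one_add (K := Metric.ball (0 : ℂ) (‖x‖ + 1))
    (f := fun (n : ℕ) (u : ℂ) => -((q : ℂ) ^ (n + 1) * u)) hU
    (Eventually.of_forall fun n u hu => by
      rw [norm_fac]
      have hu' : ‖u‖ < ‖x‖ + 1 := by simpa using hu
      exact mul_le_mul_of_nonneg_left hu'.le (pow_nonneg q_pos.le _))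
    (fun n => by fun_prop)
  have hd : DifferentiableOn ℂ F (Metric.ball (0 : ℂ) (‖x‖ + 1)) := by
    refine h.differentiableOn (Eventually.of_forall fun s => ?_) hU
    have h1 : DifferentiableOn ℂ (fun u : ℂ => ∏ i ∈ s, (1 + -((q : ℂ) ^ (i + 1) * u)))
        (Metric.ball (0 : ℂ) (‖x‖ + 1)) := by
      refine DifferentiableOn.fun_finsetProd fun i _ => ?_
      fun_prop
    exact h1
  exact (hd x (by simp)).differentiableAt (hU.mem_nhds (by simp))

lemma F_shift (u : ℂ) : F u = (1 - q * u) * F (q * u) := by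
  have h1 : Multipliable (fun n : ℕ => 1 + -((q : ℂ) ^ (n + 1 + 1) * u)) := by
    refine (F_mult (q * u)).congr fun n => ?_
    ring
  rw [F, tprod_eq_zero_mul' (f := fun n : ℕ => 1 + -((q : ℂ) ^ (n + 1) * u)) h1, F]
  congr 1
  · ring
  · refine tprod_congr fun n => ?_
    ring

lemma F_ne (u : ℂ) (h : ∀ n : ℕ, (q : ℂ) ^ (n + 1) * u ≠ 1) : F u ≠ 0 := by
  refine tprod_one_add_ne_zero_of_summable (fun n => ?_) (summ u)
  intro h0
  apply h n
  linear_combination -h0

/-- the theta function -/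
noncomputable def Th (x : ℂ) : ℂ :=
  Complex.sin (Real.pi * x) * (F (Complex.exp (2 * Real.pi * Complex.I * x)) *
    F (Complex.exp (-(2 * Real.pi * Complex.I * x))))

noncomputable def FF (x : ℂ) : ℂ := F (Complex.exp (2 * Real.pi * Complex.I * x)) *
    F (Complex.exp (-(2 * Real.pi * Complex.I * x)))

lemma FF_diff : Differentiable ℂ FF := by
  unfold FF
  exact (F_diff.comp (by fun_prop)).mul (F_diff.comp (by fun_prop))

lemma Th_eq (x : ℂ) : Th x = Complex.sin (Real.pi * x) * FF x := rfl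

lemma Th_diff : Differentiable ℂ Th := by
  have h : Differentiable ℂ (fun x : ℂ => Complex.sin (Real.pi * x)) := by fun_prop
  exact h.mul FF_diff

lemma qpow (n : ℕ) : (q : ℂ) ^ (n + 1) = Complex.exp (-(2 * Real.pi * ((n : ℂ) + 1))) := by
  rw [q, Complex.ofReal_exp, ← Complex.exp_nat_mul]
  congr 1
  push_cast
  ring

lemma FF_ne {x : ℂ} (h : ∀ (k : ℤ) (n : ℕ), x ≠ k + (n + 1) * Complex.I ∧
    x ≠ k - (n + 1) * Complex.I) : FF x ≠ 0 := by
  have hpi : (2 * Real.pi * Complex.I : ℂ) ≠ 0 := Complex.two_pi_I_ne_zero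
  refine mul_ne_zero (F_ne _ fun n h0 => ?_) (F_ne _ fun n h0 => ?_)
  · rw [qpow, ← Complex.exp_add, Complex.exp_eq_one_iff] at h0
    obtain ⟨k, hk⟩ := h0
    apply (h k n).2
    have h1 : (2 * Real.pi * Complex.I : ℂ) * (x - (k - (n + 1) * Complex.I)) = 0 := by
      have hI := Complex.I_sq
      linear_combination hk + 2 * Real.pi * ((n : ℂ) + 1) * hI
    rcases mul_eq_zero.1 h1 with h2 | h2
    · exact absurd h2 hpi
    · exact sub_eq_zero.1 h2
  · rw [qpow, ← Complex.exp_add, Complex.exp_eq_one_iff] at h0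
    obtain ⟨k, hk⟩ := h0
    apply (h (-k) n).1
    have h1 : (2 * Real.pi * Complex.I : ℂ) * (x - (((-k : ℤ) : ℂ) + (n + 1) * Complex.I)) = 0 := by
      have hI := Complex.I_sq
      push_cast
      linear_combination -hk - 2 * Real.pi * ((n : ℂ) + 1) * hI
    rcases mul_eq_zero.1 h1 with h2 | h2
    · exact absurd h2 hpi
    · exact sub_eq_zero.1 h2

lemma sin_ne {x : ℂ} (h : ∀ k : ℤ, x ≠ k) : Complex.sin (Real.pi * x) ≠ 0 := by
  intro h0
  rw [Complex.sin_eq_zero_iff] at h0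
  obtain ⟨k, hk⟩ := h0
  apply h k
  have hpi : (Real.pi : ℂ) ≠ 0 := by exact_mod_cast Real.pi_ne_zero
  have : (Real.pi : ℂ) * x = Real.pi * k := by rw [hk]; ring
  exact mul_left_cancel₀ hpi this

lemma Th_ne {x : ℂ} (hx : x ∉ Lam) : Th x ≠ 0 := by
  refine mul_ne_zero (sin_ne fun k h0 => hx ?_) (FF_ne fun k n => ⟨fun h0 => hx ?_, fun h0 => hx ?_⟩)
  · exact ⟨k, 0, by rw [h0]; simp⟩
  · exact ⟨k, (n : ℤ) + 1, by rw [h0]; push_cast; ring⟩
  · exact ⟨k, -((n : ℤ) + 1), by rw [h0]; push_cast; ring⟩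

lemma Th_one (x : ℂ) : Th (x + 1) = -Th x := by
  have h1 : (Real.pi : ℂ) * (x + 1) = Real.pi * x + Real.pi := by ring
  have h2 : Complex.exp (2 * Real.pi * Complex.I * (x + 1)) =
      Complex.exp (2 * Real.pi * Complex.I * x) := by
    rw [mul_add, mul_one, Complex.exp_add, Complex.exp_two_pi_mul_I, mul_one]
  have h3 : Complex.exp (-(2 * Real.pi * Complex.I * (x + 1))) =
      Complex.exp (-(2 * Real.pi * Complex.I * x)) := by
    rw [Complex.exp_neg, h2, Complex.exp_neg]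
  rw [Th, Th, h1, h2, h3, Complex.sin_add_pi]
  ring

lemma Th_I (x : ℂ) : Th (x + Complex.I) =
    -(Complex.exp Real.pi * Complex.exp (-(2 * Real.pi * Complex.I * x))) * Th x := by
  set a : ℂ := Complex.exp (Real.pi * Complex.I * x) with ha
  set b : ℂ := Complex.exp Real.pi with hb
  have ha0 : a ≠ 0 := Complex.exp_ne_zero _
  have hb0 : b ≠ 0 := Complex.exp_ne_zero _
  have hI := Complex.I_sq
  have hu : Complex.exp (2 * Real.pi * Complex.I * x) = a ^ 2 := by
    rw [ha, ← Complex.exp_nat_mul]; congr 1; push_cast; ring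
  have hu' : Complex.exp (-(2 * Real.pi * Complex.I * x)) = (a ^ 2)⁻¹ := by
    rw [Complex.exp_neg, hu]
  have hq : (q : ℂ) = (b ^ 2)⁻¹ := by
    rw [q, Complex.ofReal_exp, hb, ← Complex.exp_nat_mul, ← Complex.exp_neg]
    congr 1; push_cast; ring
  have hv : Complex.exp (2 * Real.pi * Complex.I * (x + Complex.I)) = q * a ^ 2 := by
    rw [← hu, q, Complex.ofReal_exp, ← Complex.exp_add]
    congr 1
    push_cast
    linear_combination (2 * Real.pi : ℂ) * hI
  have hv' : Complex.exp (-(2 * Real.pi * Complex.I * (x + Complex.I))) = (q * a ^ 2)⁻¹ := by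
    rw [Complex.exp_neg, hv]
  have hs : Complex.sin (Real.pi * x) = (a⁻¹ - a) * Complex.I / 2 := by
    rw [Complex.sin, ha, ← Complex.exp_neg]
    congr 3
    · congr 1; ring
    · congr 1; ring
  have hs' : Complex.sin (Real.pi * (x + Complex.I)) = (a⁻¹ * b - a * b⁻¹) * Complex.I / 2 := by
    rw [Complex.sin, ha, hb, ← Complex.exp_neg, ← Complex.exp_neg, ← Complex.exp_add,
      ← Complex.exp_add]
    congr 3
    · congr 1; linear_combination -(Real.pi : ℂ) * hI
    · congr 1; linear_combination (Real.pi : ℂ) * hI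
  have hq0 : (q : ℂ) ≠ 0 := by exact_mod_cast q_pos.ne'
  have hF1 : F (a ^ 2) = (1 - q * a ^ 2) * F (q * a ^ 2) := F_shift _
  have hF2 : F ((q * a ^ 2)⁻¹) = (1 - (a ^ 2)⁻¹) * F ((a ^ 2)⁻¹) := by
    have h := F_shift ((q * a ^ 2)⁻¹)
    have e : (q : ℂ) * (q * a ^ 2)⁻¹ = (a ^ 2)⁻¹ := by field_simp
    rw [e] at h
    exact h
  rw [Th, Th, hu, hu', hv, hv', hs, hs', hF2]
  by_cases h0 : 1 - (q : ℂ) * a ^ 2 = 0
  · rw [hF1, h0]
    have h1 : a⁻¹ * b - a * b⁻¹ = 0 := by
      rw [hq] at h0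
      field_simp at h0 ⊢
      linear_combination h0
    rw [h1]
    ring
  · have h1 : F (q * a ^ 2) = F (a ^ 2) / (1 - q * a ^ 2) := by
      rw [hF1]; field_simp
    rw [h1]
    have h2 : (a⁻¹ * b - a * b⁻¹) * (1 - (a ^ 2)⁻¹) =
        -(b * (a ^ 2)⁻¹) * (1 - q * a ^ 2) * (a⁻¹ - a) := by
      rw [hq]
      field_simp
      ring
    rw [show (a⁻¹ * b - a * b⁻¹) * Complex.I / 2 * (F (a ^ 2) / (1 - q * a ^ 2) *
      ((1 - (a ^ 2)⁻¹) * F ((a ^ 2)⁻¹))) = ((a⁻¹ * b - a * b⁻¹) * (1 - (a ^ 2)⁻¹)) *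
        (Complex.I / 2 * (F (a ^ 2) / (1 - q * a ^ 2) * F ((a ^ 2)⁻¹))) by ring, h2]
    have h3 : F (a ^ 2) / (1 - q * a ^ 2) * (1 - q * a ^ 2) = F (a ^ 2) := div_mul_cancel₀ _ h0
    linear_combination (-(b * (a ^ 2)⁻¹) * (a⁻¹ - a) * (Complex.I / 2) * F ((a ^ 2)⁻¹)) * h3

open Classical in
noncomputable def G (x : ℂ) : ℝ :=
  if Th x = 0 then 0 else Real.log (‖Th x‖ ^ 2) - 2 * Real.pi * x.im ^ 2

lemma G_one : Function.Periodic G 1 := by
  intro x
  simp only [G, Th_one, neg_eq_zero, norm_neg]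
  congr 4
  simp

lemma G_I : Function.Periodic G Complex.I := by
  intro x
  have hc : -(Complex.exp Real.pi * Complex.exp (-(2 * Real.pi * Complex.I * x))) ≠ 0 :=
    neg_ne_zero.2 (mul_ne_zero (Complex.exp_ne_zero _) (Complex.exp_ne_zero _))
  by_cases h0 : Th x = 0
  · have h1 : Th (x + Complex.I) = 0 := by rw [Th_I, h0, mul_zero]
    simp only [G, h0, h1, if_true]
  · have h1 : Th (x + Complex.I) ≠ 0 := by rw [Th_I]; exact mul_ne_zero hc h0
    simp only [G, h0, h1, if_false]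
    have hn : ‖Th (x + Complex.I)‖ = Real.exp (Real.pi + 2 * Real.pi * x.im) * ‖Th x‖ := by
      rw [Th_I, norm_mul, norm_neg, norm_mul, Complex.norm_exp, Complex.norm_exp, ← Real.exp_add]
      congr 2
      simp
    have hp : 0 < ‖Th x‖ := norm_pos_iff.2 h0
    rw [hn, mul_pow, Real.log_mul (by positivity) (by positivity), ← Real.exp_nat_mul,
      Real.log_exp]
    simp
    ring

lemma G_near {x : ℂ} (hx : Th x ≠ 0) :
    G =ᶠ[𝓝 x] fun y => 2 * Real.log ‖Th y‖ - 2 * Real.pi * y.im ^ 2 := by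
  have h := Th_diff.continuous.continuousAt.eventually_ne hx
  filter_upwards [h] with y hy
  simp only [G, hy, if_false]
  rw [Real.log_pow]
  norm_num

lemma smooth_aux {f : ℂ → ℂ} (hf : Differentiable ℂ f) {x : ℂ} (hx : f x ≠ 0) :
    ContDiffAt ℝ ∞ (fun y => Real.log (‖f y‖ ^ 2) - 2 * Real.pi * y.im ^ 2) x := by
  have h1 : ContDiffAt ℝ ∞ f x := (hf.contDiff (n := ∞)).contDiffAt.restrict_scalars ℝ
  have h2 : ContDiffAt ℝ ∞ (fun y => ‖f y‖ ^ 2) x := h1.norm_sq ℝ
  have h3 : ContDiffAt ℝ ∞ (fun y => Real.log (‖f y‖ ^ 2)) x :=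
    h2.log (pow_ne_zero 2 (norm_ne_zero_iff.2 hx))
  have h4 : ContDiffAt ℝ ∞ (fun y : ℂ => 2 * Real.pi * y.im ^ 2) x := by
    have : ContDiff ℝ ∞ (fun y : ℂ => y.im) := Complex.imCLM.contDiff
    exact (contDiff_const.mul (this.pow 2)).contDiffAt
  exact h3.sub h4

lemma lap_im (x : ℂ) : ContDiffAt ℝ 2 (fun y : ℂ => y.im ^ 2) x ∧
    Laplacian.laplacian (fun y : ℂ => y.im ^ 2) x = 2 := by
  have hc : ContDiffAt ℝ 2 (fun y : ℂ => y.im ^ 2) x := by
    have : ContDiff ℝ 2 (fun y : ℂ => y.im) := Complex.imCLM.contDiff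
    exact (this.pow 2).contDiffAt
  refine ⟨hc, ?_⟩
  have key : ∀ e : ℂ, iteratedFDeriv ℝ 2 (fun y : ℂ => y.im ^ 2) x ![e, e] = 2 * e.im * e.im := by
    intro e
    have h1 : ∀ t : ℝ, HasDerivAt (fun s : ℝ => (x + s • e).im) e.im t := by
      intro t
      have : (fun s : ℝ => (x + s • e).im) = fun s => x.im + s * e.im := by
        funext s; simp
      rw [this]
      simpa using ((hasDerivAt_id t).mul_const e.im).const_add x.im
    refine iter_eq (ψ := fun t => 2 * (x + t • e).im * e.im) hc e ?_ ?_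
    · filter_upwards with t
      have := (h1 t).fun_pow 2
      simpa using this
    · have := (((h1 0).const_mul 2).mul_const e.im)
      simpa using this
  rw [InnerProductSpace.laplacian_eq_iteratedFDeriv_complexPlane]
  simp only [key]
  norm_num

/-- `sin (π x) / x` -/
noncomputable def D (x : ℂ) : ℂ := dslope (fun y : ℂ => Complex.sin (Real.pi * y)) 0 x

lemma D_diff : Differentiable ℂ D := by
  have h : DifferentiableOn ℂ (fun y : ℂ => Complex.sin (Real.pi * y)) univ := by fun_prop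
  have h2 := (Complex.differentiableOn_dslope (c := (0 : ℂ)) (s := univ)
    (f := fun y : ℂ => Complex.sin (Real.pi * y)) univ_mem).2 h
  exact differentiableOn_univ.1 h2

lemma D_mul (x : ℂ) : x * D x = Complex.sin (Real.pi * x) := by
  have h := sub_smul_dslope (fun y : ℂ => Complex.sin (Real.pi * y)) 0 x
  simpa [D] using h

lemma D_zero : D 0 = Real.pi := by
  rw [D, dslope_same]
  have h : HasDerivAt (fun y : ℂ => Complex.sin (Real.pi * y))
      (Complex.cos (Real.pi * 0) * (Real.pi * 1)) 0 :=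
    ((hasDerivAt_id (0 : ℂ)).const_mul (Real.pi : ℂ)).csin
  rw [h.deriv]
  simp

lemma small {x : ℂ} (hx : ‖x‖ < 1 / 2) : (∀ k : ℤ, x = k → x = 0) ∧ ∀ (k : ℤ) (n : ℕ),
    x ≠ k + (n + 1) * Complex.I ∧ x ≠ k - (n + 1) * Complex.I := by
  have hre := (Complex.abs_re_le_norm x).trans_lt hx
  have him := (Complex.abs_im_le_norm x).trans_lt hx
  rw [abs_lt] at hre him
  refine ⟨fun k hk => ?_, fun k n => ⟨fun h => ?_, fun h => ?_⟩⟩
  · have h1 : x.re = k := by rw [hk]; simp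
    rw [h1] at hre
    have h2 : (k : ℝ) < 1 := by linarith
    have h3 : (-1 : ℝ) < k := by linarith
    have h4 : k < 1 := by exact_mod_cast h2
    have h5 : -1 < k := by exact_mod_cast h3
    have h6 : k = 0 := by omega
    rw [hk, h6]; simp
  · have h1 : x.im = n + 1 := by rw [h]; simp
    have : (0 : ℝ) ≤ n := Nat.cast_nonneg n
    linarith
  · have h1 : x.im = -(n + 1) := by rw [h]; simp
    have : (0 : ℝ) ≤ n := Nat.cast_nonneg n
    linarith

lemma T_ne {x : ℂ} (hx : ‖x‖ < 1 / 2) : D x * FF x ≠ 0 := by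
  obtain ⟨h1, h2⟩ := small hx
  refine mul_ne_zero ?_ (FF_ne h2)
  by_cases h0 : x = 0
  · rw [h0, D_zero]
    exact_mod_cast Real.pi_ne_zero
  · intro h3
    have h4 := D_mul x
    rw [h3, mul_zero] at h4
    exact sin_ne (fun k hk => h0 (h1 k hk)) h4.symm

theorem green : StG := by
  refine ⟨G, fun x => Real.log (‖D x * FF x‖ ^ 2) - 2 * Real.pi * x.im ^ 2, 4 * Real.pi, ?_⟩
  refine ⟨by positivity, ?_, ?_, ?_, ?_, ?_⟩
  · rintro x l ⟨m, n, rfl⟩
    have h1 := (G_one.int_mul m)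
    have h2 := (G_I.int_mul n)
    have h3 := h1.add_period h2
    have := h3 x
    simpa using this
  · intro x hx
    have h0 := Th_ne hx
    refine (smooth_aux Th_diff h0).congr_of_eventuallyEq ?_
    filter_upwards [G_near h0] with y hy
    rw [hy, Real.log_pow]
    norm_num
  · intro x hx
    have h0 := Th_ne hx
    rw [InnerProductSpace.laplacian_congr_nhds (G_near h0) |>.self_of_nhds]
    have hh : InnerProductSpace.HarmonicAt (fun y : ℂ => Real.log ‖Th y‖) x :=
      AnalyticAt.harmonicAt_log_norm (f := Th) (Th_diff.analyticAt x) h0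
    obtain ⟨c1, l1⟩ := hh
    obtain ⟨c2, l2⟩ := lap_im x
    have e : (fun y : ℂ => 2 * Real.log ‖Th y‖ - 2 * Real.pi * y.im ^ 2) =
        (2 : ℝ) • (fun y : ℂ => Real.log ‖Th y‖) + (-(2 * Real.pi)) • (fun y : ℂ => y.im ^ 2) := by
      funext y
      simp [sub_eq_add_neg]
    have cc1 : ContDiffAt ℝ 2 ((2 : ℝ) • (fun y : ℂ => Real.log ‖Th y‖)) x :=
      c1.const_smul (2 : ℝ)
    have cc2 : ContDiffAt ℝ 2 ((-(2 * Real.pi)) • (fun y : ℂ => y.im ^ 2)) x :=
      c2.const_smul (-(2 * Real.pi))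
    rw [e, cc1.laplacian_add cc2, InnerProductSpace.laplacian_smul _ c1,
      InnerProductSpace.laplacian_smul _ c2, l2, l1.self_of_nhds]
    simp
    ring
  · intro x hx
    exact smooth_aux (D_diff.mul FF_diff) (T_ne hx)
  · intro x hx hx0
    have h1 : Th x = x * (D x * FF x) := by
      rw [Th_eq, ← D_mul x]; ring
    have h2 : Th x ≠ 0 := by rw [h1]; exact mul_ne_zero hx0 (T_ne hx)
    have h3 : 0 < ‖x‖ := norm_pos_iff.2 hx0
    have h4 : 0 < ‖D x * FF x‖ := norm_pos_iff.2 (T_ne hx)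
    simp only [G, h2, if_false]
    rw [h1, norm_mul x, mul_pow, Real.log_mul (by positivity) (by positivity)]
    ring

end Pool.Agent.Y257.SP
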